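import Pool.Agent.Helper69.CS.St
import Pool.Agent.Helper69.CR.Top
import Pool.Agent.Helper68.BA.Main
import Pool.Agent.Helper68.BA.FT

/-!
# MP_3dd6d4_an: from the one-dimensional bounds `Bd n p N` to the plane (helper68)
-/

set_option autoImplicit false

open MeasureTheory Set Filter Topology
open scoped ENNReal NNReal SchwartzMap

noncomputable section

namespace Helper68.CSG

open Helper85.BP Helper69.CR Helper69.CR.DB Helper69.CS Pool.Agent.Helper68.BA

/-- the one-dimensional estimate with exponent `p` and constant `C` -/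
def OneDC (n : ℕ) (p C : ℝ) : Prop := ∀ f : ℝ → ℂ, Continuous f →
  (∀ y, IntegrableOn (fun u => f (y + u)) (Ioi 0)) →
  ∫⁻ y, ENNReal.ofReal (‖Bop n f y‖ ^ p * Real.exp y) ≤
    ENNReal.ofReal (C ^ p) * ∫⁻ y, ENNReal.ofReal (‖f y‖ ^ p * Real.exp y)

lemma Nm_pow (p : ℝ) (hp : 0 < p) (v : ℝ → ℂ) :
    Nm p v ^ p = ∫⁻ y, ENNReal.ofReal (‖v y‖ ^ p * Real.exp y) := by
  rw [Nm_eq hp, ← ENNReal.rpow_mul, one_div, inv_mul_cancel₀ hp.ne', ENNReal.rpow_one, lint_mu]
  refine lintegral_congr fun y => ?_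
  rw [ENNReal.ofReal_mul (by positivity), mul_comm, ← ofReal_norm,
    ENNReal.ofReal_rpow_of_nonneg (norm_nonneg _) hp.le]

/-- compactly supported `f` -/
lemma cptC (n : ℕ) (p C : ℝ) (hp : 0 < p) (hC : 0 ≤ C) (v : ℝ → ℂ)
    (h : Nm p (Bop n v) ≤ ENNReal.ofReal C * Nm p v) :
    ∫⁻ y, ENNReal.ofReal (‖Bop n v y‖ ^ p * Real.exp y) ≤
      ENNReal.ofReal (C ^ p) * ∫⁻ y, ENNReal.ofReal (‖v y‖ ^ p * Real.exp y) := by
  rw [← Nm_pow p hp, ← Nm_pow p hp, ← ENNReal.ofReal_rpow_of_nonneg hC hp.le,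
    ← ENNReal.mul_rpow_of_nonneg _ _ hp.le]
  exact ENNReal.rpow_le_rpow h hp.le

/-- general `f` -/
theorem oneDC_of_Bd (n : ℕ) (p C : ℝ) (hp0 : 0 < p) (hC : 0 ≤ C)
    (h : ∀ v : ℝ → ℂ, Continuous v → HasCompactSupport v →
      Nm p (Bop n v) ≤ ENNReal.ofReal C * Nm p v) : OneDC n p C := by
  intro f hf hi
  have hcont : ∀ j, Continuous (fun x => ((chi_EN j x : ℝ) : ℂ) * f x) := by
    intro j
    have h1 := chi_cont_EN j
    fun_prop
  have hsupp : ∀ j, HasCompactSupport (fun x => ((chi_EN j x : ℝ) : ℂ) * f x) := by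
    intro j
    apply HasCompactSupport.mul_right
    exact (chi_supp_EN j).comp_left (g := fun r : ℝ => (r : ℂ)) (by simp)
  apply fatou_EN
    (F := fun j y => ‖Bop n (fun x => ((chi_EN j x : ℝ) : ℂ) * f x) y‖ ^ p * Real.exp y)
    (B := fun _ => ENNReal.ofReal (C ^ p) *
      ∫⁻ y, ENNReal.ofReal (‖f y‖ ^ p * Real.exp y))
  · intro j
    exact meas_EN (hIS2 hKR) n p _ (hcont j) (hsupp j)
  · intro y
    apply Tendsto.mul_const
    exact ((Bop_lim_EN n f hf y (hi y)).norm).rpow_const (Or.inr hp0.le)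
  · intro j
    refine (cptC n p C hp0 hC _ (h _ (hcont j) (hsupp j))).trans ?_
    gcongr with y
    rw [norm_mul, Complex.norm_real, Real.norm_eq_abs, abs_of_nonneg (chi_nonneg_EN _ _)]
    have h3 := chi_le_EN j y
    have h4 := chi_nonneg_EN j y
    nlinarith [norm_nonneg (f y)]
  · exact tendsto_const_nhds

theorem crit_phiC (n : ℕ) (p C : ℝ) (hp0 : 0 < p) (hC : 0 ≤ C) (h1 : OneDC n p C)
    (φ : 𝓢(ℂ, ℂ)) (hm : HasMode n φ) :
    eLpNorm (dz^[n] φ) (ENNReal.ofReal p) volume ≤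
      ENNReal.ofReal C * eLpNorm (dzbar^[n] φ) (ENNReal.ofReal p) volume := by
  obtain ⟨a3, a4⟩ := iter_dzS φ n hm n
  obtain ⟨b3, b4⟩ := iter_dzbarS φ n hm n
  have a1 : Continuous (dz^[n] φ) := a4 ▸ (dzS^[n] φ).continuous
  have b1 : Continuous (dzbar^[n] φ) := b4 ▸ (dzbarS^[n] φ).continuous
  rw [a4] at a3
  rw [b4] at b3
  refine norm_bound_C a3 a1 b3 b1 p hp0 _ hC ?_
  have hrep : ∀ y : ℝ, ‖prof (dz^[n] φ) y‖ = ‖Bop n (prof (dzbar^[n] φ)) y‖ := by
    intro y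
    rw [repr_pos n n φ hm y, hKR.2, sub_self, abs_zero, zero_div, min_self, norm_mul, norm_pow,
      norm_neg, norm_one, one_pow, one_mul]
  simp only [hrep]
  refine h1 _ (prof_continuous b1) fun y => ?_
  have h2 := EE_integrable_pos (gb n n φ hm n) 0 y
  rw [gb_n] at h2
  refine h2.congr_fun (fun u _ => ?_) measurableSet_Ioi
  simp

/-- the estimate for the frozen form of `T^n f`, `f` of mode `2n` -/
theorem crit_modeC (n : ℕ) (p C : ℝ) (hp : 2 ≤ p) (hC : 0 ≤ C) (h1 : OneDC n p C)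
    (f : SchwartzMap ℂ ℂ)
    (hf : ∀ (θ : ℝ) (z : ℂ),
      f (Complex.exp (θ * Complex.I) * z) = Complex.exp (((2 * n : ℕ) : ℂ) * θ * Complex.I) * f z) :
    MeasureTheory.eLpNorm
        (fun z : ℂ => ∫ ξ : ℂ,
          Complex.exp (2 * (Real.pi : ℂ) * Complex.I * ((z.re * ξ.re + z.im * ξ.im : ℝ) : ℂ)) *
            ((starRingEnd ℂ ξ / ξ) ^ n *
              ∫ w : ℂ, Complex.exp (-(2 * (Real.pi : ℂ) * Complex.I *
                ((w.re * ξ.re + w.im * ξ.im : ℝ) : ℂ))) * f w))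
        (ENNReal.ofReal p) MeasureTheory.volume
      ≤ ENNReal.ofReal C *
        MeasureTheory.eLpNorm (fun z : ℂ => f z) (ENNReal.ofReal p) MeasureTheory.volume := by
  rw [frozen_eq]
  refine mult_bound n f p hp _ fun t => ?_
  have hf' : HasMode ((2 * n : ℕ) : ℤ) f := by
    intro θ z
    rw [hf θ z]
    norm_cast
  have hmode := phi_mode n t f hf'
  have e : (((2 * n : ℕ) : ℤ) - n : ℤ) = n := by push_cast; ring
  rw [e] at hmode
  have h := crit_phiC n p C (by linarith) hC h1 (phi n t f) hmode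
  rw [(iter_dzS (phi n t f) n hmode n).2, (iter_dzbarS (phi n t f) n hmode n).2]
  exact h

/-- every angular mode, all `n ≥ 1` and `p ≥ 2` -/
theorem every_mode
    (HB : ∀ (n : ℕ) (p : ℝ), 1 ≤ n → 4 ≤ p → Bd n p (1 + 33 / 250 * (p - 4) / p ^ 2))
    (HS : StSLK) (n : ℕ) (hn : 1 ≤ n) (p : ℝ) (hp : 2 ≤ p) (m : ℤ) (f : SchwartzMap ℂ ℂ)
    (hf : ∀ (θ : ℝ) (z : ℂ),
      f (Complex.exp (θ * Complex.I) * z) = Complex.exp (m * θ * Complex.I) * f z) :
    MeasureTheory.eLpNorm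
        (fun z : ℂ => ∫ ξ : ℂ,
          Complex.exp (2 * (Real.pi : ℂ) * Complex.I * ((z.re * ξ.re + z.im * ξ.im : ℝ) : ℂ)) *
            ((starRingEnd ℂ ξ / ξ) ^ n *
              ∫ w : ℂ, Complex.exp (-(2 * (Real.pi : ℂ) * Complex.I *
                ((w.re * ξ.re + w.im * ξ.im : ℝ) : ℂ))) * f w))
        (ENNReal.ofReal p) MeasureTheory.volume
      ≤ ENNReal.ofReal (if m = 2 * n then
            (1 + if p ≤ 4 ∨ n ≤ 2 then 0 else 33 / 250 * (p - 4) / p ^ 2) *
              ∏ k ∈ Finset.range n, ((k + 1 - 1 / p) / (k + 1 / p))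
          else (Real.exp 2 * max 1 (min |(m : ℝ) - n| n)) ^ (1 - 2 / p)) *
        MeasureTheory.eLpNorm (fun z : ℂ => f z) (ENNReal.ofReal p) MeasureTheory.volume ∧
    (if m = 2 * n then
        (1 + if p ≤ 4 ∨ n ≤ 2 then 0 else 33 / 250 * (p - 4) / p ^ 2) *
          ∏ k ∈ Finset.range n, ((k + 1 - 1 / p) / (k + 1 / p))
      else (Real.exp 2 * max 1 (min |(m : ℝ) - n| n)) ^ (1 - 2 / p)) ≤
      (n : ℝ) ^ (1 - 2 / p) * (p - 1) := by
  have hcast : ((m - n : ℤ) : ℝ) = (m : ℝ) - n := by push_cast; rfl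
  by_cases h2 : m = 2 * n
  · rw [if_pos h2]
    have hf2 : ∀ (θ : ℝ) (z : ℂ),
        f (Complex.exp (θ * Complex.I) * z) =
          Complex.exp (((2 * n : ℕ) : ℂ) * θ * Complex.I) * f z := by
      intro θ z
      rw [hf θ z, h2]
      norm_cast
    by_cases hm : p ≤ 4 ∨ n ≤ 2
    · rw [if_pos hm, add_zero, one_mul]
      exact ⟨crit_sharp n hn p hp hm f hf2, hNU n p hn hp⟩
    · rw [if_neg hm]
      push Not at hm
      have hC : 0 ≤ (1 + 33 / 250 * (p - 4) / p ^ 2) * Cn n (1 / p) := by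
        apply mul_nonneg
        · have : 0 ≤ 33 / 250 * (p - 4) / p ^ 2 := by
            apply div_nonneg _ (by positivity)
            linarith [hm.1]
          linarith
        · exact Cn_nonneg n (1 / p) (by positivity) (by rw [div_le_one (by linarith)]; linarith)
      refine ⟨crit_modeC n p _ hp hC ?_ f hf2, HS n p (by omega) hm.1.le⟩
      exact oneDC_of_Bd n p _ (by linarith) hC (HB n p hn hm.1.le)
  · rw [if_neg h2]
    constructor
    · rw [frozen_eq]
      refine mult_bound n f p hp _ fun t => ?_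
      have hmode : HasMode (m - n) (phi n t f) := phi_mode n t f hf
      have h := mode_bound n hn (m - n) (by omega) p hp (phi n t f) hmode
      rw [hcast] at h
      rw [(iter_dzS (phi n t f) (m - n) hmode n).2, (iter_dzbarS (phi n t f) (m - n) hmode n).2]
      exact h
    · have h := const_le n hn (m - n) p hp
      rwa [hcast] at h

end Helper68.CSG
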